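import Mathlib
import Pool.Agent.H602R3.DHJ.Main

/-!
# MP_d99131 : a good sequence none of whose ratios `|λ_n| / |λ_{n+τ}|` converges

Let `λ_n = 1` if `⌊log₂ n⌋` is even and `λ_n = 2` otherwise.  The ratios `λ_n / λ_{n+τ}` take both
values `1` and `2` infinitely often.  The sequence is good: if `{n : λ_n Tⁿ x ∈ U}` has positive
upper density, then by the density Hales-Jewett theorem it contains arbitrarily long arithmetic
progressions inside one dyadic block, and on a dyadic block `λ` is constant.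
-/

namespace Pool.Agent.Results.MP_d99131_an.GoodSequence

open Filter Topology Finset
open scoped ENNReal

universe u

/-- Upper density of a set of positive integers: `limsup |B ∩ [1, N]| / N`. -/
noncomputable def upperDensity (B : Set ℕ) : ℝ :=
  limsup (fun N : ℕ => ((B ∩ Set.Icc 1 N).ncard : ℝ) / N) atTop

/-- Property `𝒜` of a sequence of operators. -/
def PropertyA {X : Type u} [NormedAddCommGroup X] [NormedSpace ℂ X] (S : ℕ → X →L[ℂ] X) : Prop :=
  ∀ U : Set X, IsOpen U → U.Nonempty → ∃ x : X, 0 < upperDensity {n | S n x ∈ U}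

/-- `T` is topologically multiply recurrent. -/
def MultiplyRecurrent {X : Type u} [NormedAddCommGroup X] [NormedSpace ℂ X]
    (T : X →L[ℂ] X) : Prop :=
  ∀ U : Set X, IsOpen U → U.Nonempty → ∀ m : ℕ, ∃ k : ℕ, 1 ≤ k ∧
    ∃ y : X, ∀ j : ℕ, j ≤ m → (T ^ (j * k)) y ∈ U

/-- The sequence `lam` (of nonzero complex numbers) is good: for every operator `T` on an
infinite-dimensional separable complex Banach space, if `(lam n • T ^ n)` has property `𝒜` then `T`
is topologically multiply recurrent. -/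
def Good (lam : ℕ → ℂ) : Prop :=
  ∀ (X : Type u) [NormedAddCommGroup X] [NormedSpace ℂ X] [CompleteSpace X]
    [TopologicalSpace.SeparableSpace X], ¬ FiniteDimensional ℂ X → ∀ T : X →L[ℂ] X,
    PropertyA (fun n => lam n • T ^ n) → MultiplyRecurrent T

/-- The sequence: `1` on the dyadic blocks of even index, `2` on those of odd index. -/
noncomputable def lam (n : ℕ) : ℂ := if Even (Nat.log 2 n) then 1 else 2

theorem lam_ne (n : ℕ) : lam n ≠ 0 := by
  unfold lam; split_ifs <;> norm_num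

/-! ### Densities -/

theorem ncard_le (B : Set ℕ) (N : ℕ) : (B ∩ Set.Icc 1 N).ncard ≤ N := by
  calc (B ∩ Set.Icc 1 N).ncard ≤ (Set.Icc 1 N).ncard :=
        Set.ncard_le_ncard Set.inter_subset_right (Set.finite_Icc 1 N)
    _ = N := by rw [← Finset.coe_Icc, Set.ncard_coe_finset, Nat.card_Icc]; omega

theorem quot_le_one (B : Set ℕ) (N : ℕ) : ((B ∩ Set.Icc 1 N).ncard : ℝ) / N ≤ 1 := by
  refine div_le_one_of_le₀ ?_ (Nat.cast_nonneg _)
  exact_mod_cast ncard_le B N

theorem freq_of_upperDensity_pos {B : Set ℕ} (h : 0 < upperDensity B) :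
    ∃ δ : ℝ, 0 < δ ∧ ∃ᶠ N : ℕ in atTop, δ * N ≤ ((B ∩ Set.Icc 1 N).ncard : ℝ) := by
  refine ⟨upperDensity B / 2, by linarith, ?_⟩
  have h1 : upperDensity B / 2 < limsup (fun N : ℕ => ((B ∩ Set.Icc 1 N).ncard : ℝ) / N) atTop := by
    change upperDensity B / 2 < upperDensity B
    linarith
  have hb : IsCoboundedUnder (· ≤ ·) atTop (fun N : ℕ => ((B ∩ Set.Icc 1 N).ncard : ℝ) / N) :=
    isCoboundedUnder_le_of_le atTop (x := 0) fun N => by positivity
  have h2 := frequently_lt_of_lt_limsup hb h1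
  refine h2.mono fun N hN => ?_
  rcases Nat.eq_zero_or_pos N with h0 | h0
  · subst h0; simp
  · have h0' : (0 : ℝ) < N := by exact_mod_cast h0
    exact ((lt_div_iff₀ h0').1 hN).le

theorem upperDensity_pos_of_freq {B : Set ℕ} {δ : ℝ} (hδ : 0 < δ)
    (h : ∃ᶠ N : ℕ in atTop, δ ≤ ((B ∩ Set.Icc 1 N).ncard : ℝ) / N) : 0 < upperDensity B := by
  refine hδ.trans_le ?_
  exact le_limsup_of_frequently_le h (isBoundedUnder_of ⟨1, quot_le_one B⟩)

/-! ### Combinatorics: progressions inside dyadic blocks -/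

open Pool.Agent.H602R3.DHJ in
theorem line_sum {m L : ℕ} (V : Fin L → Fin (m + 1) ⊕ Unit) (hV : Pr V) :
    ∃ s r : ℕ, 1 ≤ r ∧ ∀ a : Fin (m + 1),
      ∑ i, ((ap V (fun _ => a) i : Fin (m + 1)) : ℕ) = s + r * (a : ℕ) := by
  refine ⟨∑ i, Sum.elim (fun b : Fin (m + 1) => (b : ℕ)) (fun _ => 0) (V i),
    ∑ i, Sum.elim (fun _ : Fin (m + 1) => 0) (fun _ => 1) (V i), ?_, fun a => ?_⟩
  · obtain ⟨i, hi⟩ := hV ()
    have h1 : Sum.elim (fun _ : Fin (m + 1) => 0) (fun _ : Unit => 1) (V i) = 1 := by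
      rw [hi]; rfl
    calc 1 = Sum.elim (fun _ : Fin (m + 1) => 0) (fun _ : Unit => 1) (V i) := h1.symm
      _ ≤ ∑ i, Sum.elim (fun _ : Fin (m + 1) => 0) (fun _ => 1) (V i) :=
        single_le_sum (f := fun i => Sum.elim (fun _ : Fin (m + 1) => 0) (fun _ : Unit => 1) (V i))
          (fun _ _ => Nat.zero_le _) (mem_univ i)
  · rw [sum_mul, ← sum_add_distrib]
    refine sum_congr rfl fun i _ => ?_
    unfold ap
    rcases V i with b | b
    · simp
    · simp

theorem sum_le_mul {m L : ℕ} (w : Fin L → Fin (m + 1)) : ∑ i, (w i : ℕ) ≤ L * m := by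
  calc ∑ i, (w i : ℕ) ≤ ∑ _i : Fin L, m := sum_le_sum fun i _ => by omega
    _ = L * m := by simp

theorem shift_card (B : Set ℕ) (N s : ℕ) [DecidablePred (· ∈ B)] :
    ((Icc 1 N).filter (· ∈ B)).card ≤ ((Icc 1 N).filter (fun x => x + s ∈ B)).card + s := by
  have h1 : (Icc 1 N).filter (· ∈ B) ⊆
      ((Icc 1 N).filter (fun x => x + s ∈ B)).image (· + s) ∪ Icc 1 s := by
    intro n hn
    simp only [mem_filter, mem_Icc, mem_union, mem_image] at hn ⊢
    by_cases hns : n ≤ s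
    · right; exact ⟨hn.1.1, hns⟩
    · left
      refine ⟨n - s, ⟨⟨by omega, by omega⟩, ?_⟩, by omega⟩
      have : n - s + s = n := by omega
      rw [this]; exact hn.2
  calc ((Icc 1 N).filter (· ∈ B)).card
      ≤ (((Icc 1 N).filter (fun x => x + s ∈ B)).image (· + s) ∪ Icc 1 s).card := card_le_card h1
    _ ≤ (((Icc 1 N).filter (fun x => x + s ∈ B)).image (· + s)).card + (Icc 1 s).card :=
        card_union_le _ _
    _ ≤ ((Icc 1 N).filter (fun x => x + s ∈ B)).card + s :=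
        Nat.add_le_add card_image_le (by simp)

/-- the exceptional set: starting points whose window of length `W` leaves its dyadic block -/
def Exc (N W : ℕ) : Finset ℕ := (Icc 1 N).filter (fun x => Nat.log 2 x ≠ Nat.log 2 (x + W))

theorem card_Exc (N W : ℕ) : (Exc N W).card ≤ (Nat.log 2 (N + W) + 1) * W := by
  have h1 : Exc N W ⊆ ((range (Nat.log 2 (N + W) + 1)) ×ˢ (range W)).image
      (fun p => 2 ^ p.1 - 1 - p.2) := by
    intro x hx
    simp only [Exc, mem_filter, mem_Icc] at hx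
    obtain ⟨⟨hx1, hxN⟩, hne⟩ := hx
    have hlt : Nat.log 2 x < Nat.log 2 (x + W) :=
      lt_of_le_of_ne (Nat.log_mono_right (by omega)) hne
    have h2 : 2 ^ Nat.log 2 (x + W) ≤ x + W := Nat.pow_log_le_self 2 (by omega)
    have h3 : x < 2 ^ Nat.log 2 (x + W) := Nat.lt_pow_of_log_lt (by norm_num) hlt
    have h4 : Nat.log 2 (x + W) ≤ Nat.log 2 (N + W) := Nat.log_mono_right (by omega)
    simp only [mem_image, mem_product, mem_range, Prod.exists]
    exact ⟨Nat.log 2 (x + W), 2 ^ Nat.log 2 (x + W) - 1 - x, ⟨by omega, by omega⟩, by omega⟩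
  calc (Exc N W).card ≤ _ := card_le_card h1
    _ ≤ ((range (Nat.log 2 (N + W) + 1)) ×ˢ (range W)).card := card_image_le
    _ = (Nat.log 2 (N + W) + 1) * W := by simp

theorem eventually_small (W : ℕ) (ε : ℝ) (hε : 0 < ε) :
    ∀ᶠ N : ℕ in atTop, (W : ℝ) + ((Nat.log 2 (N + W) + 1) * W : ℕ) < ε * N := by
  have hlog2 : 0 < Real.log 2 := Real.log_pos (by norm_num)
  -- `log (N + W) ≤ c (N + W)` eventually
  set c : ℝ := ε * Real.log 2 / (4 * (W + 1)) with hc
  have hcpos : 0 < c := by positivity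
  have h1 : ∀ᶠ y : ℝ in atTop, |Real.log y| ≤ c * |y| := by
    have := Real.isLittleO_log_id_atTop.def hcpos
    simpa [Real.norm_eq_abs] using this
  have h2 : Tendsto (fun N : ℕ => ((N + W : ℕ) : ℝ)) atTop atTop :=
    tendsto_natCast_atTop_atTop.comp (tendsto_add_atTop_nat W)
  have h3 := h2.eventually h1
  obtain ⟨K, hK⟩ := exists_nat_gt (8 * (W + 1) / ε)
  filter_upwards [h3, eventually_ge_atTop (W + 1), eventually_ge_atTop K] with N hN hNW hNK
  have hN0 : (0 : ℝ) < N := by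
    have : 0 < N := by omega
    exact_mod_cast this
  have hNWr : (W : ℝ) + 1 ≤ N := by exact_mod_cast hNW
  have hbig : 8 * (W + 1) < ε * N := by
    have h5 : 8 * ((W : ℝ) + 1) / ε < N := hK.trans_le (by exact_mod_cast hNK)
    rw [div_lt_iff₀ hε] at h5
    linarith
  have h6 : (Nat.log 2 (N + W) : ℝ) * Real.log 2 ≤ Real.log ((N + W : ℕ) : ℝ) := by
    have h7 : 2 ^ Nat.log 2 (N + W) ≤ N + W := Nat.pow_log_le_self 2 (by omega)
    have h8 : ((2 : ℝ) ^ Nat.log 2 (N + W)) ≤ ((N + W : ℕ) : ℝ) := by exact_mod_cast h7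
    calc (Nat.log 2 (N + W) : ℝ) * Real.log 2 = Real.log ((2 : ℝ) ^ Nat.log 2 (N + W)) := by
          rw [Real.log_pow]
      _ ≤ _ := Real.log_le_log (by positivity) h8
  have h9 : (Nat.log 2 (N + W) : ℝ) * Real.log 2 ≤ c * (2 * N) := by
    refine h6.trans ((le_abs_self _).trans (hN.trans ?_))
    rw [abs_of_nonneg (by positivity)]
    push_cast
    have : (N : ℝ) + W ≤ 2 * N := by linarith
    gcongr
  have h10 : (Nat.log 2 (N + W) : ℝ) * (W + 1) ≤ ε * N / 2 := by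
    have h11 : c * (2 * N) = (ε * N / 2) / (W + 1) * Real.log 2 := by
      rw [hc]; field_simp; ring
    rw [h11] at h9
    have h12 := le_of_mul_le_mul_right h9 hlog2
    rw [le_div_iff₀ (by positivity)] at h12
    exact h12
  push_cast
  have h13 : (0 : ℝ) ≤ Nat.log 2 (N + W) := Nat.cast_nonneg _
  have h14 : (0 : ℝ) ≤ W := Nat.cast_nonneg _
  nlinarith

open Pool.Agent.H602R3.DHJ in
theorem exists_progression (B : Set ℕ) (hB : 0 < upperDensity B) (m : ℕ) :
    ∃ x n r : ℕ, 1 ≤ r ∧ ∀ a : ℕ, a ≤ m → n + a * r ∈ B ∧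
      Nat.log 2 (n + a * r) = Nat.log 2 x := by
  classical
  obtain ⟨δ, hδ, hfreq⟩ := freq_of_upperDensity_pos hB
  obtain ⟨L, hL⟩ := dhj m (δ / 2) (by linarith)
  obtain ⟨N, hN1, hN2⟩ := (hfreq.and_eventually
    (eventually_small (L * m) (δ / 2) (by linarith))).exists
  have hcardB : ((B ∩ Set.Icc 1 N).ncard : ℝ) = ((Icc 1 N).filter (· ∈ B)).card := by
    have : B ∩ Set.Icc 1 N = (((Icc 1 N).filter (· ∈ B) : Finset ℕ) : Set ℕ) := by
      ext n
      rw [Set.mem_inter_iff, Set.mem_Icc, mem_coe, mem_filter, mem_Icc]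
      tauto
    rw [this, Set.ncard_coe_finset]
  rw [hcardB] at hN1
  set W := L * m with hW
  -- find a starting point
  obtain ⟨x, hx, hxE, hdn⟩ : ∃ x ∈ Icc 1 N, x ∉ Exc N W ∧
      δ / 2 ≤ dn {w : Fin L → Fin (m + 1) | x + ∑ i, (w i : ℕ) ∈ B} := by
    by_contra hcon
    push Not at hcon
    have hC : (0 : ℝ) < Fintype.card (Fin L → Fin (m + 1)) := by exact_mod_cast Fintype.card_pos
    have hdn_eq : ∀ x : ℕ, dn {w : Fin L → Fin (m + 1) | x + ∑ i, (w i : ℕ) ∈ B} =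
        (∑ w : Fin L → Fin (m + 1), if x + ∑ i, (w i : ℕ) ∈ B then (1 : ℝ) else 0)
          / Fintype.card (Fin L → Fin (m + 1)) := by
      intro x
      unfold dn av
      congr 1
    have hdn_le : ∀ x : ℕ, dn {w : Fin L → Fin (m + 1) | x + ∑ i, (w i : ℕ) ∈ B} ≤ 1 := by
      intro x
      rw [hdn_eq, div_le_one hC]
      calc (∑ w : Fin L → Fin (m + 1), if x + ∑ i, (w i : ℕ) ∈ B then (1 : ℝ) else 0)
          ≤ ∑ w : Fin L → Fin (m + 1), (1 : ℝ) := by
            refine sum_le_sum fun w _ => ?_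
            split_ifs <;> norm_num
        _ = Fintype.card (Fin L → Fin (m + 1)) := by simp
    have hupper : ∑ x ∈ Icc 1 N, dn {w : Fin L → Fin (m + 1) | x + ∑ i, (w i : ℕ) ∈ B}
        ≤ (Exc N W).card + N * (δ / 2) := by
      calc ∑ x ∈ Icc 1 N, dn {w : Fin L → Fin (m + 1) | x + ∑ i, (w i : ℕ) ∈ B}
          ≤ ∑ x ∈ Icc 1 N, ((if x ∈ Exc N W then (1 : ℝ) else 0) + δ / 2) := by
            refine sum_le_sum fun x hx => ?_
            split_ifs with hxe
            · linarith [hdn_le x]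
            · linarith [hcon x hx hxe]
        _ = (Exc N W).card + N * (δ / 2) := by
            rw [sum_add_distrib, sum_const, Nat.card_Icc, sum_ite_mem,
              inter_eq_right.2 (show Exc N W ⊆ Icc 1 N from filter_subset _ _)]
            simp
    have hlower : ((Icc 1 N).filter (· ∈ B)).card - (W : ℝ)
        ≤ ∑ x ∈ Icc 1 N, dn {w : Fin L → Fin (m + 1) | x + ∑ i, (w i : ℕ) ∈ B} := by
      simp_rw [hdn_eq]
      rw [← sum_div, sum_comm, le_div_iff₀ hC]
      have h1 : ∀ w : Fin L → Fin (m + 1),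
          ((Icc 1 N).filter (· ∈ B)).card - (W : ℝ)
            ≤ ∑ x ∈ Icc 1 N, if x + ∑ i, (w i : ℕ) ∈ B then (1 : ℝ) else 0 := by
        intro w
        have h2 := shift_card B N (∑ i, (w i : ℕ))
        have h3 := sum_le_mul w
        rw [sum_boole]
        have h4 : ((Icc 1 N).filter (· ∈ B)).card ≤
            ((Icc 1 N).filter (fun x => x + ∑ i, (w i : ℕ) ∈ B)).card + W := by omega
        have h5 : (((Icc 1 N).filter (· ∈ B)).card : ℝ) ≤
            ((Icc 1 N).filter (fun x => x + ∑ i, (w i : ℕ) ∈ B)).card + W := by exact_mod_cast h4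
        linarith
      calc (((Icc 1 N).filter (· ∈ B)).card - (W : ℝ)) * Fintype.card (Fin L → Fin (m + 1))
          = ∑ _w : Fin L → Fin (m + 1), (((Icc 1 N).filter (· ∈ B)).card - (W : ℝ)) := by
            rw [sum_const, card_univ, nsmul_eq_mul]; ring
        _ ≤ _ := sum_le_sum fun w _ => h1 w
    have hE : ((Exc N W).card : ℝ) ≤ ((Nat.log 2 (N + W) + 1) * W : ℕ) := by
      exact_mod_cast card_Exc N W
    nlinarith
  -- a combinatorial line
  have hline : ∃ V : Fin L → Fin (m + 1) ⊕ Unit, Pr V ∧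
      ∀ a, ap V (fun _ => a) ∈ {w : Fin L → Fin (m + 1) | x + ∑ i, (w i : ℕ) ∈ B} := by
    by_contra hcon
    push Not at hcon
    exact absurd (hL _ hcon) (not_lt.2 hdn)
  obtain ⟨V, hV, hVB⟩ := hline
  obtain ⟨s, r, hr, hsum⟩ := line_sum V hV
  refine ⟨x, x + s, r, hr, fun a ha => ?_⟩
  have h1 := hVB ⟨a, by omega⟩
  simp only [Set.mem_ofPred_eq] at h1
  have h2 := hsum ⟨a, by omega⟩
  simp only at h2
  have h3 : x + s + a * r = x + ∑ i, ((ap V (fun _ => (⟨a, by omega⟩ : Fin (m + 1))) i :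
      Fin (m + 1)) : ℕ) := by
    rw [h2]; ring
  rw [h3]
  refine ⟨h1, ?_⟩
  have hxl : Nat.log 2 x = Nat.log 2 (x + W) := by
    by_contra hne
    exact hxE (mem_filter.2 ⟨hx, hne⟩)
  have h4 := sum_le_mul (ap V (fun _ => (⟨a, by omega⟩ : Fin (m + 1))))
  apply le_antisymm
  · rw [hxl]; exact Nat.log_mono_right (by omega)
  · exact Nat.log_mono_right (by omega)

theorem good_lam : Good.{u} lam := by
  intro X _ _ _ _ _ T hA U hU hUne m
  obtain ⟨x, hx⟩ := hA U hU hUne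
  obtain ⟨x₀, n, r, hr, H⟩ := exists_progression _ hx m
  refine ⟨r, hr, lam n • (T ^ n) x, fun j hj => ?_⟩
  have h0 := (H 0 (Nat.zero_le _)).2
  obtain ⟨h1, h2⟩ := H j hj
  have h3 : lam (n + j * r) = lam n := by
    unfold lam
    rw [h2, ← h0]
    simp
  have h4 : (T ^ (j * r)) (lam n • (T ^ n) x) = (lam (n + j * r) • T ^ (n + j * r)) x := by
    rw [h3, map_smul, add_comm n, pow_add]
    rfl
  rw [h4]
  exact h1

/-! ### The ratios do not converge -/

theorem log_two_pow_add {j τ : ℕ} (h : τ < 2 ^ j) : Nat.log 2 (2 ^ j + τ) = j := by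
  refine Nat.log_eq_of_pow_le_of_lt_pow (Nat.le_add_right _ _) ?_
  rw [pow_succ]; omega

theorem no_limit (τ : ℕ) (hτ : 1 ≤ τ) :
    ¬ ∃ l : ℝ≥0∞, Tendsto (fun n => ENNReal.ofReal (‖lam n‖ / ‖lam (n + τ)‖)) atTop (𝓝 l) := by
  rintro ⟨l, hl⟩
  have hpow : Tendsto (fun j : ℕ => 2 ^ j) atTop atTop :=
    tendsto_pow_atTop_atTop_of_one_lt (by norm_num)
  -- along `n = 2 ^ j` the ratio is one
  have h1 : Tendsto (fun j : ℕ => ENNReal.ofReal (‖lam (2 ^ j)‖ / ‖lam (2 ^ j + τ)‖)) atTop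
      (𝓝 l) := hl.comp hpow
  have h2 : Tendsto (fun j : ℕ => ENNReal.ofReal (‖lam (2 ^ j)‖ / ‖lam (2 ^ j + τ)‖)) atTop
      (𝓝 1) := by
    refine tendsto_const_nhds.congr' ?_
    filter_upwards [hpow.eventually_gt_atTop τ] with j hj
    have h3 : lam (2 ^ j + τ) = lam (2 ^ j) := by
      unfold lam
      rw [log_two_pow_add hj, Nat.log_pow (by norm_num)]
    rw [h3, div_self (norm_ne_zero_iff.2 (lam_ne _)), ENNReal.ofReal_one]
  -- along `n = 2 ^ (2 j) - 1` the ratio is two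
  have hsub : Tendsto (fun j : ℕ => 2 ^ (2 * (j + 1)) - 1) atTop atTop := by
    refine tendsto_atTop_mono (fun j => ?_) tendsto_id
    have : 2 * (j + 1) < 2 ^ (2 * (j + 1)) := Nat.lt_two_pow_self
    simp only [id]; omega
  have h4 : Tendsto (fun j : ℕ => ENNReal.ofReal (‖lam (2 ^ (2 * (j + 1)) - 1)‖ /
      ‖lam (2 ^ (2 * (j + 1)) - 1 + τ)‖)) atTop (𝓝 l) := hl.comp hsub
  have h5 : Tendsto (fun j : ℕ => ENNReal.ofReal (‖lam (2 ^ (2 * (j + 1)) - 1)‖ /
      ‖lam (2 ^ (2 * (j + 1)) - 1 + τ)‖)) atTop (𝓝 2) := by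
    refine tendsto_const_nhds.congr' ?_
    filter_upwards [eventually_ge_atTop τ] with j hj
    have hlt : 2 * (j + 1) < 2 ^ (2 * (j + 1)) := Nat.lt_two_pow_self
    have h6 : lam (2 ^ (2 * (j + 1)) - 1) = 2 := by
      have h7 : Nat.log 2 (2 ^ (2 * (j + 1)) - 1) = 2 * j + 1 := by
        have h8 : 2 ^ (2 * (j + 1)) = 2 * 2 ^ (2 * j + 1) := by ring
        have h9 : 1 ≤ 2 ^ (2 * j + 1) := Nat.one_le_two_pow
        refine Nat.log_eq_of_pow_le_of_lt_pow (by omega) ?_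
        rw [pow_succ]; omega
      unfold lam
      rw [h7, if_neg (by simp)]
    have h10 : lam (2 ^ (2 * (j + 1)) - 1 + τ) = 1 := by
      have h11 : 2 ^ (2 * (j + 1)) - 1 + τ = 2 ^ (2 * (j + 1)) + (τ - 1) := by omega
      unfold lam
      rw [h11, log_two_pow_add (by omega), if_pos (by simp)]
    rw [h6, h10]
    simp
  have h12 := tendsto_nhds_unique h1 h2
  have h13 := tendsto_nhds_unique h4 h5
  rw [h12] at h13
  norm_num at h13

/-! ### Property `𝒜` does occur -/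

theorem propertyA_id (X : Type u) [NormedAddCommGroup X] [NormedSpace ℂ X] :
    PropertyA (fun n => lam n • (ContinuousLinearMap.id ℂ X) ^ n) := by
  intro U _ hne
  obtain ⟨x, hx⟩ := hne
  refine ⟨x, upperDensity_pos_of_freq (δ := 1 / 2) (by norm_num) ?_⟩
  rw [frequently_atTop]
  intro a
  have ha : a < 2 ^ (2 * a + 1) := by
    have : 2 * a + 1 < 2 ^ (2 * a + 1) := Nat.lt_two_pow_self
    omega
  refine ⟨2 ^ (2 * a + 1), ha.le, ?_⟩
  have h1 : (((Finset.Ico (2 ^ (2 * a)) (2 ^ (2 * a + 1))) : Finset ℕ) : Set ℕ) ⊆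
      {n | (lam n • (ContinuousLinearMap.id ℂ X) ^ n) x ∈ U} ∩ Set.Icc 1 (2 ^ (2 * a + 1)) := by
    intro n hn
    rw [Finset.coe_Ico] at hn
    have h2 : 1 ≤ 2 ^ (2 * a) := Nat.one_le_two_pow
    refine ⟨?_, ⟨h2.trans hn.1, hn.2.le⟩⟩
    have h3 : Nat.log 2 n = 2 * a := Nat.log_eq_of_pow_le_of_lt_pow hn.1 hn.2
    have h4 : lam n = 1 := by
      unfold lam; rw [h3, if_pos (by simp)]
    have h5 : (ContinuousLinearMap.id ℂ X) ^ n = 1 := one_pow n
    rw [Set.mem_ofPred_eq, h4, h5]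
    simpa using hx
  have h2 := Set.ncard_le_ncard h1 ((Set.finite_Icc _ _).subset Set.inter_subset_right)
  rw [Set.ncard_coe_finset, Nat.card_Ico] at h2
  have h3 : 2 ^ (2 * a + 1) - 2 ^ (2 * a) = 2 ^ (2 * a) := by
    rw [pow_succ]; omega
  rw [h3] at h2
  have h4 : ((2 ^ (2 * a) : ℕ) : ℝ) ≤ (({n | (lam n • (ContinuousLinearMap.id ℂ X) ^ n) x ∈ U} ∩
      Set.Icc 1 (2 ^ (2 * a + 1))).ncard : ℝ) := by exact_mod_cast h2
  rw [le_div_iff₀ (by positivity)]
  refine le_trans (le_of_eq ?_) h4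
  push_cast
  ring

theorem result : ∃ lam : ℕ → ℂ, (∀ n, lam n ≠ 0) ∧ Good.{u} lam ∧
    (∀ τ : ℕ, 1 ≤ τ →
      ¬ ∃ l : ℝ≥0∞, Tendsto (fun n => ENNReal.ofReal (‖lam n‖ / ‖lam (n + τ)‖)) atTop (𝓝 l)) ∧
    (∀ (X : Type u) [NormedAddCommGroup X] [NormedSpace ℂ X],
      PropertyA (fun n => lam n • (ContinuousLinearMap.id ℂ X) ^ n)) :=
  ⟨lam, lam_ne, good_lam, no_limit, fun X _ _ => propertyA_id X⟩

end Pool.Agent.Results.MP_d99131_an.GoodSequence
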